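import Mathlib
import Pool.Agent.U623.HC.Poly

/-!
# Star sums: definitions, merging, independence
-/

set_option autoImplicit false

namespace Pool.Agent.U623.HZ

open Pool.Agent.H447R2.MZ (H H_nil H_cons H_cons_zero H_cons_succ H_nonneg H_mono Adm val H_le_val)
open Pool.Agent.Q217.TT (nat)
open Pool.Agent.U623.HC (indep_real)

/-- truncated star sums: the sum of `∏ n_i ^ (- a_i)` over `N ≥ n_1 ≥ ... ≥ n_r ≥ 1` -/
noncomputable def Hs : List ℕ → ℕ → ℝ
  | [], _ => 1
  | (a :: s), N => ∑ n ∈ Finset.range N, (((n + 1 : ℕ) : ℝ) ^ a)⁻¹ * Hs s (n + 1)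

lemma Hs_nil (N : ℕ) : Hs [] N = 1 := by rw [Hs]

lemma Hs_cons (a : ℕ) (s : List ℕ) (N : ℕ) :
    Hs (a :: s) N = ∑ n ∈ Finset.range N, (((n + 1 : ℕ) : ℝ) ^ a)⁻¹ * Hs s (n + 1) := by rw [Hs]

lemma Hs_succ (a : ℕ) (s : List ℕ) (N : ℕ) :
    Hs (a :: s) (N + 1) = Hs (a :: s) N + (((N + 1 : ℕ) : ℝ) ^ a)⁻¹ * Hs s (N + 1) := by
  rw [Hs_cons, Finset.sum_range_succ, ← Hs_cons]

lemma Hs_nonneg (s : List ℕ) (N : ℕ) : 0 ≤ Hs s N := by
  induction s generalizing N with
  | nil => rw [Hs_nil]; exact zero_le_one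
  | cons a s ih =>
    rw [Hs_cons]
    exact Finset.sum_nonneg fun n _ => mul_nonneg (by positivity) (ih _)

lemma Hs_mono (s : List ℕ) : Monotone (Hs s) := by
  cases s with
  | nil => intro a b _; rw [Hs_nil, Hs_nil]
  | cons a s =>
    refine monotone_nat_of_le_succ fun N => ?_
    rw [Hs_succ]
    have := mul_nonneg (by positivity : (0 : ℝ) ≤ (((N + 1 : ℕ) : ℝ) ^ a)⁻¹) (Hs_nonneg s (N + 1))
    linarith

/-- merging the first letter -/
def fm (a : ℕ+) : List ℕ+ → List (List ℕ+)
  | [] => []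
  | (b :: v) => [(a + b) :: v]

/-- all words obtained by replacing some commas by plus signs -/
def mg : List ℕ+ → List (List ℕ+)
  | [] => [[]]
  | (a :: w) => (mg w).flatMap fun v => (a :: v) :: fm a v

lemma sum_flatMap {α β : Type} (l : List α) (g : α → List β) (f : β → ℝ) :
    ((l.flatMap g).map f).sum = (l.map fun x => ((g x).map f).sum).sum := by
  induction l with
  | nil => simp
  | cons x l ih => rw [List.flatMap_cons, List.map_append, List.sum_append, ih, List.map_cons, List.sum_cons]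

lemma step_fm (a : ℕ+) (v : List ℕ+) (N : ℕ) :
    ((((a :: v) :: fm a v).map fun x => H (nat x) (N + 1))).sum =
      ((((a :: v) :: fm a v).map fun x => H (nat x) N)).sum +
        (((N + 1 : ℕ) : ℝ) ^ (a : ℕ))⁻¹ * H (nat v) (N + 1) := by
  cases v with
  | nil =>
    rw [fm]
    simp only [List.map_cons, List.map_nil, List.sum_cons, List.sum_nil, add_zero, nat]
    rw [H_cons_succ, H_nil, H_nil]
  | cons b v =>
    rw [fm]
    simp only [List.map_cons, List.map_nil, List.sum_cons, List.sum_nil, add_zero, nat]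
    rw [H_cons_succ, H_cons_succ, H_cons_succ, PNat.add_coe, pow_add, mul_inv]
    ring

/-- the star sums are sums of the ordinary sums -/
lemma Hs_eq (w : List ℕ+) (N : ℕ) : Hs (nat w) N = ((mg w).map fun v => H (nat v) N).sum := by
  induction w generalizing N with
  | nil =>
    rw [mg]
    simp only [List.map_cons, List.map_nil, List.sum_cons, List.sum_nil, add_zero, nat]
    rw [Hs_nil, H_nil]
  | cons a w ih =>
    have e1 : nat (a :: w) = (a : ℕ) :: nat w := rfl
    rw [e1, mg, sum_flatMap]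
    induction N with
    | zero =>
      rw [Hs_cons, Finset.range_zero, Finset.sum_empty]
      symm
      apply List.sum_eq_zero
      intro x hx
      rw [List.mem_map] at hx
      obtain ⟨v, _, rfl⟩ := hx
      cases v with
      | nil => rw [fm]; simp only [List.map_cons, List.map_nil, List.sum_cons, List.sum_nil, add_zero, nat,
                 H_cons_zero]
      | cons b v => rw [fm]; simp only [List.map_cons, List.map_nil, List.sum_cons, List.sum_nil, add_zero, nat,
                 H_cons_zero]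
    | succ N ihN =>
      rw [Hs_succ, ihN, ih (N + 1)]
      simp only [step_fm]
      rw [← List.sum_map_mul_left, ← List.sum_map_add]

lemma mg_len (w : List ℕ+) : ∀ v ∈ mg w, v.length ≤ w.length ∧ (v.length = w.length → v = w) := by
  induction w with
  | nil =>
    intro v hv
    rw [mg, List.mem_singleton] at hv
    rw [hv]
    exact ⟨le_rfl, fun _ => rfl⟩
  | cons a w ih =>
    intro v hv
    rw [mg, List.mem_flatMap] at hv
    obtain ⟨x, hx, hv⟩ := hv
    obtain ⟨h1, h2⟩ := ih x hx
    rcases List.mem_cons.1 hv with h | h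
    · rw [h]
      simp only [List.length_cons]
      refine ⟨by omega, fun h3 => ?_⟩
      rw [h2 (by omega)]
    · cases x with
      | nil => rw [fm] at h; simp at h
      | cons b y =>
        rw [fm, List.mem_singleton] at h
        rw [h]
        simp only [List.length_cons] at h1 ⊢
        refine ⟨by omega, fun h3 => ?_⟩
        omega

lemma mg_self (w : List ℕ+) : w ∈ mg w := by
  induction w with
  | nil => rw [mg]; simp
  | cons a w ih =>
    rw [mg, List.mem_flatMap]
    exact ⟨w, ih, List.mem_cons_self⟩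

/-- the first letter does not decrease -/
lemma mg_first (a : ℕ+) (w v : List ℕ+) (hv : v ∈ mg (a :: w)) : ∃ b v', v = b :: v' ∧ a ≤ b := by
  rw [mg, List.mem_flatMap] at hv
  obtain ⟨x, _, hv⟩ := hv
  rcases List.mem_cons.1 hv with h | h
  · exact ⟨a, x, h, le_rfl⟩
  · cases x with
    | nil => rw [fm] at h; simp at h
    | cons b y =>
      rw [fm, List.mem_singleton] at h
      exact ⟨a + b, y, h, le_of_lt (PNat.lt_add_right a b)⟩

lemma adm_mg (a : ℕ+) (ha : 2 ≤ (a : ℕ)) (w v : List ℕ+) (hv : v ∈ mg (a :: w)) : Adm (nat v) := by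
  obtain ⟨b, v', rfl, hab⟩ := mg_first a w v hv
  refine ⟨fun x hx => ?_, fun x t h => ?_⟩
  · rw [nat, List.mem_map] at hx
    obtain ⟨y, _, rfl⟩ := hx
    exact y.pos
  · have h1 : (b : ℕ) = x := by
      have : nat (b :: v') = (b : ℕ) :: nat v' := rfl
      rw [this] at h
      exact (List.cons.inj h).1
    rw [← h1]
    exact ha.trans hab

/-- the star sums are bounded -/
lemma Hs_bdd (a : ℕ+) (ha : 2 ≤ (a : ℕ)) (w : List ℕ+) : ∃ B : ℝ, ∀ N, Hs (nat (a :: w)) N ≤ B := by
  refine ⟨((mg (a :: w)).map fun v => val (nat v)).sum, fun N => ?_⟩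
  rw [Hs_eq]
  refine List.sum_le_sum fun v hv => ?_
  exact H_le_val _ (adm_mg a ha w v hv) N

/-- how often `v` occurs among the words obtained from `u` -/
def cnt (v u : List ℕ+) : ℕ := @List.count (List ℕ+) instBEqOfDecidableEq v (mg u)

lemma cnt_zero {v u : List ℕ+} (h : v ∉ mg u) : cnt v u = 0 :=
  @List.count_eq_zero_of_not_mem (List ℕ+) instBEqOfDecidableEq _ v (mg u) h

lemma cnt_self (u : List ℕ+) : 0 < cnt u u :=
  (@List.count_pos_iff (List ℕ+) instBEqOfDecidableEq _ u (mg u)).2 (mg_self u)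

/-- the star sums are linearly independent over the real numbers, finitely many values suffice -/
lemma indep_star (U : Finset (List ℕ+)) : ∃ M : ℕ, ∀ c : List ℕ+ → ℝ,
    (∃ u ∈ U, c u ≠ 0) → ∃ n, n ≤ M ∧ ∑ u ∈ U, c u * Hs (nat u) n ≠ 0 := by
  classical
  set V : Finset (List ℕ+) := U.biUnion fun u => (mg u).toFinset with hV
  obtain ⟨M, hM⟩ := indep_real V
  refine ⟨M, fun c hc => ?_⟩
  set d : List ℕ+ → ℝ := fun v => ∑ u ∈ U, c u * (cnt v u : ℝ) with hd
  have hsum : ∀ n, ∑ u ∈ U, c u * Hs (nat u) n = ∑ v ∈ V, d v * H (nat v) n := by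
    intro n
    have h1 : ∀ u ∈ U, c u * Hs (nat u) n = ∑ v ∈ V, c u * (cnt v u : ℝ) * H (nat v) n := by
      intro u hu
      rw [Hs_eq, Finset.sum_list_map_count, Finset.mul_sum]
      have hsub : (mg u).toFinset ⊆ V := Finset.subset_biUnion_of_mem (fun u => (mg u).toFinset) hu
      rw [← Finset.sum_subset hsub]
      · refine Finset.sum_congr rfl fun v _ => ?_
        rw [nsmul_eq_mul, cnt]
        ring
      · intro v _ hv
        rw [List.mem_toFinset] at hv
        rw [cnt_zero hv]
        simp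
    rw [Finset.sum_congr rfl h1, Finset.sum_comm]
    refine Finset.sum_congr rfl fun v _ => ?_
    rw [hd, Finset.sum_mul]
  -- a longest word
  obtain ⟨u1, hu1, hcu1⟩ := hc
  obtain ⟨u0, hu0, hmax⟩ := Finset.exists_max_image (U.filter fun u => c u ≠ 0) (fun u => u.length)
    ⟨u1, Finset.mem_filter.2 ⟨hu1, hcu1⟩⟩
  obtain ⟨hu0U, hcu0⟩ := Finset.mem_filter.1 hu0
  have hd0 : d u0 ≠ 0 := by
    rw [hd]
    simp only
    rw [Finset.sum_eq_single u0]
    · refine mul_ne_zero hcu0 ?_
      have h0 : 0 < cnt u0 u0 := cnt_self u0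
      exact_mod_cast h0.ne'
    · intro u hu hne
      by_cases hcu : c u = 0
      · rw [hcu, zero_mul]
      · have h1 := hmax u (Finset.mem_filter.2 ⟨hu, hcu⟩)
        have h2 : u0 ∉ mg u := by
          intro h3
          obtain ⟨h4, h5⟩ := mg_len u u0 h3
          exact hne (h5 (le_antisymm h4 h1)).symm
        rw [cnt_zero h2]
        simp
    · intro h
      exact absurd hu0U h
  obtain ⟨n, hn, hne⟩ := hM d ⟨u0, Finset.mem_biUnion.2 ⟨u0, hu0U, List.mem_toFinset.2 (mg_self u0)⟩, hd0⟩
  exact ⟨n, hn, by rw [hsum]; exact hne⟩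

end Pool.Agent.U623.HZ
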