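import Mathlib
import Pool.Agent.U623.HZ.Star

/-!
# Star sums with a common first part: the weights
-/

set_option autoImplicit false

namespace Pool.Agent.U623.HZ

open Pool.Agent.Q217.TT (nat)

/-- the sum of `∏ n_i ^ (- s_i)` over `N ≥ n_1 ≥ ... ≥ n_a > M` -/
noncomputable def es : List ℕ → ℕ → ℕ → ℝ
  | [], _, _ => 1
  | (s :: p), M, N => ∑ n ∈ Finset.Ico M N, (((n + 1 : ℕ) : ℝ) ^ s)⁻¹ * es p M (n + 1)

lemma es_nil (M N : ℕ) : es [] M N = 1 := by rw [es]

lemma es_self (s : ℕ) (p : List ℕ) (M : ℕ) : es (s :: p) M M = 0 := by rw [es]; simp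

lemma es_nonneg (p : List ℕ) (M N : ℕ) : 0 ≤ es p M N := by
  induction p generalizing N with
  | nil => rw [es_nil]; exact zero_le_one
  | cons s p ih =>
    rw [es]
    exact Finset.sum_nonneg fun n _ => mul_nonneg (by positivity) (ih _)

lemma es_succ (s : ℕ) (p : List ℕ) {M N : ℕ} (h : M ≤ N) :
    es (s :: p) M (N + 1) = es (s :: p) M N + (((N + 1 : ℕ) : ℝ) ^ s)⁻¹ * es p M (N + 1) := by
  rw [es, Finset.sum_Ico_succ_top h, ← es]

lemma es_anti (p : List ℕ) {M M' : ℕ} (h : M ≤ M') : ∀ {N : ℕ}, M' ≤ N → es p M' N ≤ es p M N := by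
  induction p with
  | nil => intro N _; rw [es_nil, es_nil]
  | cons s p ih =>
    intro N hN
    rw [es, es]
    refine le_trans (Finset.sum_le_sum fun n hn => ?_) (Finset.sum_le_sum_of_subset_of_nonneg
      (Finset.Ico_subset_Ico_left h) fun n _ _ => mul_nonneg (by positivity) (es_nonneg _ _ _))
    exact mul_le_mul_of_nonneg_left (ih (by have := (Finset.mem_Ico.1 hn).1; omega)) (by positivity)

/-- the star sum of `p s u` -/
lemma Hs_app (u : List ℕ) (s : ℕ) (p : List ℕ) (N : ℕ) : Hs (p ++ s :: u) N =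
    ∑ n ∈ Finset.range N, Hs u (n + 1) * (((n + 1 : ℕ) : ℝ) ^ s)⁻¹ * es p n N := by
  induction p generalizing N with
  | nil =>
    rw [List.nil_append, Hs_cons]
    refine Finset.sum_congr rfl fun n _ => ?_
    rw [es_nil]
    ring
  | cons t p ih =>
    rw [List.cons_append]
    induction N with
    | zero => rw [Hs_cons]; simp
    | succ N ihN =>
      rw [Hs_succ, ihN, ih (N + 1), Finset.sum_range_succ, Finset.sum_range_succ, es_succ t p le_rfl, es_self,
        mul_add, Finset.mul_sum, ← add_assoc, ← Finset.sum_add_distrib]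
      congr 1
      · refine Finset.sum_congr rfl fun n hn => ?_
        rw [es_succ t p (by have := Finset.mem_range.1 hn; omega : n ≤ N)]
        ring
      · ring

/-- the lower bound -/
lemma es_low (p : List ℕ) (m : ℕ) : ∀ N, m + 1 ≤ N → (((m + 1 : ℕ) : ℝ) ^ p.sum)⁻¹ ≤ es p m N := by
  induction p with
  | nil => intro N _; rw [es_nil, List.sum_nil, pow_zero, inv_one]
  | cons s p ih =>
    intro N hN
    have h1 := ih (m + 1) le_rfl
    rw [es, List.sum_cons, pow_add, mul_inv]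
    refine le_trans (mul_le_mul_of_nonneg_left h1 (by positivity)) ?_
    exact Finset.single_le_sum (f := fun n => (((n + 1 : ℕ) : ℝ) ^ s)⁻¹ * es p m (n + 1))
      (fun n _ => mul_nonneg (by positivity) (es_nonneg _ _ _)) (Finset.mem_Ico.2 ⟨le_rfl, by omega⟩)

/-- the auxiliary function -/
noncomputable def G (q N : ℕ) : ℝ := (Nat.choose (2 * q) q : ℝ) * (Nat.choose N q : ℝ) / (Nat.choose (N + q) q : ℝ)

lemma G_self (q : ℕ) : G q q = 1 := by
  rw [G, Nat.choose_self, Nat.cast_one, mul_one, ← two_mul, div_self]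
  have := Nat.choose_pos (by omega : q ≤ 2 * q)
  exact_mod_cast this.ne'

lemma G_nonneg (q N : ℕ) : 0 ≤ G q N := by rw [G]; positivity

lemma G_le (q N : ℕ) : G q N ≤ (Nat.choose (2 * q) q : ℝ) := by
  rw [G, mul_div_assoc]
  refine mul_le_of_le_one_right (Nat.cast_nonneg _) ?_
  have h1 : 0 < Nat.choose (N + q) q := Nat.choose_pos (by omega)
  rw [div_le_one (by exact_mod_cast h1)]
  exact_mod_cast Nat.choose_le_choose q (by omega)

lemma G_step (q N : ℕ) (hq : 1 ≤ q) (h : q ≤ N) :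
    G q N + ((q : ℝ) / ((N + 1 : ℕ) : ℝ)) ^ 2 * G q (N + 1) = G q (N + 1) := by
  have h1 := Nat.choose_mul_succ_eq N q
  have h2 := Nat.choose_mul_succ_eq (N + q) q
  rw [show N + q + 1 - q = N + 1 by omega] at h2
  obtain ⟨d, hd⟩ : ∃ d : ℕ, N = q + d := ⟨N - q, by omega⟩
  rw [show N + 1 - q = d + 1 by omega] at h1
  have h3 : 0 < Nat.choose (N + q) q := Nat.choose_pos (by omega)
  have h4 : 0 < Nat.choose (N + 1 + q) q := Nat.choose_pos (by omega)
  rw [show N + q + 1 = N + 1 + q by ring] at h2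
  have e1 : (Nat.choose N q : ℝ) * ((N : ℝ) + 1) = (Nat.choose (N + 1) q : ℝ) * ((d : ℝ) + 1) := by
    exact_mod_cast h1
  have e2 : (Nat.choose (N + q) q : ℝ) * ((N : ℝ) + 1 + q) = (Nat.choose (N + 1 + q) q : ℝ) * ((N : ℝ) + 1) := by
    exact_mod_cast h2
  have e3 : (0 : ℝ) < (Nat.choose (N + q) q : ℝ) := by exact_mod_cast h3
  have e4 : (0 : ℝ) < (Nat.choose (N + 1 + q) q : ℝ) := by exact_mod_cast h4
  have e5 : (N : ℝ) = q + d := by exact_mod_cast hd
  have hN : (0 : ℝ) < (N : ℝ) + 1 := by positivity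
  have hd0 : (0 : ℝ) < (d : ℝ) + 1 := by positivity
  have hq0 : (0 : ℝ) ≤ q := Nat.cast_nonneg _
  rw [G, G]
  generalize (Nat.choose N q : ℝ) = a at e1 ⊢
  generalize (Nat.choose (N + 1) q : ℝ) = a' at e1 ⊢
  generalize (Nat.choose (N + q) q : ℝ) = b at e2 e3 ⊢
  generalize (Nat.choose (N + 1 + q) q : ℝ) = b' at e2 e4 ⊢
  generalize (Nat.choose (2 * q) q : ℝ) = c
  have ha : a' = a * ((N : ℝ) + 1) / ((d : ℝ) + 1) := by rw [eq_div_iff hd0.ne']; exact e1.symm
  have hb : b' = b * ((N : ℝ) + 1 + q) / ((N : ℝ) + 1) := by rw [eq_div_iff hN.ne']; exact e2.symm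
  have hNq : (0 : ℝ) < (N : ℝ) + 1 + q := by positivity
  rw [ha, hb]
  push_cast
  field_simp
  rw [e5]
  ring

lemma G_one (q N : ℕ) (hq : 1 ≤ q) (h : q ≤ N) : 1 ≤ G q N := by
  induction N, h using Nat.le_induction with
  | base => rw [G_self]
  | succ N hN ih =>
    have h1 := G_step q N hq hN
    have h2 : 0 ≤ ((q : ℝ) / ((N + 1 : ℕ) : ℝ)) ^ 2 * G q (N + 1) := mul_nonneg (by positivity) (G_nonneg _ _)
    linarith

/-- the upper bound -/
lemma es_up (p : List ℕ) (hp : ∀ x ∈ p, 2 ≤ x) (m : ℕ) : ∀ N, m + 1 ≤ N →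
    es p m N ≤ G (m + 1) N * (((m + 1 : ℕ) : ℝ) ^ p.sum)⁻¹ := by
  induction p with
  | nil =>
    intro N hN
    rw [es_nil, List.sum_nil, pow_zero, inv_one, mul_one]
    exact G_one _ _ (by omega) hN
  | cons s p ih =>
    intro N hN
    have hs : 2 ≤ s := hp s List.mem_cons_self
    have ih' := ih fun x hx => hp x (List.mem_cons_of_mem _ hx)
    induction N, hN using Nat.le_induction with
    | base =>
      rw [es_succ s p le_rfl, es_self, zero_add, List.sum_cons, pow_add, mul_inv]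
      have h1 := ih' (m + 1) le_rfl
      calc (((m + 1 : ℕ) : ℝ) ^ s)⁻¹ * es p m (m + 1)
          ≤ (((m + 1 : ℕ) : ℝ) ^ s)⁻¹ * (G (m + 1) (m + 1) * (((m + 1 : ℕ) : ℝ) ^ p.sum)⁻¹) :=
            mul_le_mul_of_nonneg_left h1 (by positivity)
        _ = _ := by ring
    | succ N hN ihN =>
      rw [es_succ s p (by omega : m ≤ N)]
      have h1 := ih' (N + 1) (by omega)
      have h2 := G_step (m + 1) N (by omega) hN
      set q : ℝ := ((m + 1 : ℕ) : ℝ) with hq
      have hq0 : 0 < q := by rw [hq]; positivity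
      set y : ℝ := ((N + 1 : ℕ) : ℝ) with hy
      have hy0 : 0 < y := by rw [hy]; positivity
      have hqy : q ≤ y := by rw [hq, hy]; exact_mod_cast (by omega : m + 1 ≤ N + 1)
      obtain ⟨s', rfl⟩ : ∃ s', s = s' + 2 := ⟨s - 2, by omega⟩
      have h3 : (y ^ (s' + 2))⁻¹ ≤ (q ^ (s' + 2))⁻¹ * (q / y) ^ 2 := by
        have h4 : (q / y) ^ (s' + 2) ≤ (q / y) ^ 2 :=
          pow_le_pow_of_le_one (by positivity) ((div_le_one hy0).2 hqy) (by omega)
        have h5 : (y ^ (s' + 2))⁻¹ = (q ^ (s' + 2))⁻¹ * (q / y) ^ (s' + 2) := by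
          rw [div_pow]
          field_simp
        rw [h5]
        exact mul_le_mul_of_nonneg_left h4 (by positivity)
      have hG0 := G_nonneg (m + 1) (N + 1)
      have h6 : (y ^ (s' + 2))⁻¹ * es p m (N + 1) ≤
          (q ^ (s' + 2))⁻¹ * (q / y) ^ 2 * (G (m + 1) (N + 1) * (q ^ p.sum)⁻¹) :=
        mul_le_mul h3 h1 (es_nonneg _ _ _) (by positivity)
      rw [List.sum_cons] at ihN ⊢
      have h7 : (q ^ (s' + 2 + p.sum))⁻¹ = (q ^ (s' + 2))⁻¹ * (q ^ p.sum)⁻¹ := by rw [pow_add, mul_inv]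
      rw [h7] at ihN ⊢
      have h8 : G (m + 1) (N + 1) * ((q ^ (s' + 2))⁻¹ * (q ^ p.sum)⁻¹) =
          (G (m + 1) N + (q / y) ^ 2 * G (m + 1) (N + 1)) * ((q ^ (s' + 2))⁻¹ * (q ^ p.sum)⁻¹) := by rw [h2]
      rw [h8]
      have h9 : (G (m + 1) N + (q / y) ^ 2 * G (m + 1) (N + 1)) * ((q ^ (s' + 2))⁻¹ * (q ^ p.sum)⁻¹) =
          G (m + 1) N * ((q ^ (s' + 2))⁻¹ * (q ^ p.sum)⁻¹) +
          (q ^ (s' + 2))⁻¹ * (q / y) ^ 2 * (G (m + 1) (N + 1) * (q ^ p.sum)⁻¹) := by ring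
      rw [h9]
      exact add_le_add ihN h6

/-- denominators -/
lemma den_star (w : List ℕ) : ∀ N : ℕ, ∃ z : ℤ, Hs w N * ((N.factorial : ℕ) : ℝ) ^ w.sum = z := by
  induction w with
  | nil => intro N; exact ⟨1, by rw [Hs_nil, List.sum_nil, pow_zero]; simp⟩
  | cons a w ih =>
    intro N
    choose z hz using ih
    have hK : ∀ n, ∃ K : ℕ, n < N → N.factorial = (n + 1).factorial * K := by
      intro n
      by_cases h : n < N
      · obtain ⟨K, hK⟩ := Nat.factorial_dvd_factorial (by omega : n + 1 ≤ N)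
        exact ⟨K, fun _ => hK⟩
      · exact ⟨0, fun h' => absurd h' h⟩
    choose K hK using hK
    refine ⟨∑ n ∈ Finset.range N, ((n.factorial * K n : ℕ) : ℤ) ^ a * (z (n + 1) * ((K n : ℕ) : ℤ) ^ w.sum), ?_⟩
    rw [Hs_cons, Finset.sum_mul]
    push_cast
    refine Finset.sum_congr rfl fun n hn => ?_
    have h1 := hK n (Finset.mem_range.1 hn)
    have h2 := hz (n + 1)
    rw [List.sum_cons, pow_add]
    have h3 : ((N.factorial : ℕ) : ℝ) ^ w.sum =
        (((n + 1).factorial : ℕ) : ℝ) ^ w.sum * ((K n : ℕ) : ℝ) ^ w.sum := by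
      rw [h1, Nat.cast_mul, mul_pow]
    have h4 : ((N.factorial : ℕ) : ℝ) ^ a = ((n : ℝ) + 1) ^ a * (((n.factorial : ℕ) : ℝ) * ((K n : ℕ) : ℝ)) ^ a := by
      rw [h1, Nat.factorial_succ, ← mul_pow]
      push_cast
      congr 1
      ring
    rw [h3, h4, ← h2]
    have h5 : ((n : ℝ) + 1) ^ a ≠ 0 := by positivity
    field_simp

end Pool.Agent.U623.HZ
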