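import Mathlib
import Pool.Agent.U623.HZ.Es

/-!
# Star sums with a common first part: the estimate
-/

set_option autoImplicit false

namespace Pool.Agent.U623.HZ

open Filter Topology
open Pool.Agent.Q217.TT (nat)

/-- the combination -/
noncomputable def F (U : Finset (List ℕ+)) (c : List ℕ+ → ℝ) (n : ℕ) : ℝ := ∑ u ∈ U, c u * Hs (nat u) (n + 1)

/-- the first nonzero value -/
lemma first (U : Finset (List ℕ+)) : ∃ M : ℕ, ∀ c : List ℕ+ → ℝ, (∃ u ∈ U, c u ≠ 0) →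
    ∃ n0 ≤ M, (∀ n < n0, F U c n = 0) ∧ F U c n0 ≠ 0 := by
  classical
  obtain ⟨M, hM⟩ := indep_star (U.image (List.cons 1))
  refine ⟨M, fun c hc => ?_⟩
  obtain ⟨u0, hu0, hcu0⟩ := hc
  obtain ⟨n, hn, hne⟩ := hM (fun w => c w.tail) ⟨1 :: u0, Finset.mem_image.2 ⟨u0, hu0, rfl⟩, hcu0⟩
  rw [Finset.sum_image (fun a _ b _ h => (List.cons.inj h).2)] at hne
  have hex : ∃ m, m < n ∧ F U c m ≠ 0 := by
    by_contra h
    push Not at h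
    apply hne
    have e1 : ∀ u : List ℕ+, nat (1 :: u) = 1 :: nat u := fun u => rfl
    simp only [List.tail_cons, e1, Hs_cons, Finset.mul_sum]
    rw [Finset.sum_comm]
    refine Finset.sum_eq_zero fun m hm => ?_
    have h1 := h m (Finset.mem_range.1 hm)
    have h2 : ∑ x ∈ U, c x * ((((m + 1 : ℕ) : ℝ) ^ 1)⁻¹ * Hs (nat x) (m + 1)) =
        (((m + 1 : ℕ) : ℝ) ^ 1)⁻¹ * F U c m := by
      rw [F, Finset.mul_sum]
      refine Finset.sum_congr rfl fun x _ => ?_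
      ring
    rw [h2, h1, mul_zero]
  obtain ⟨m, hm, hmne⟩ := hex
  have hex : ∃ m, F U c m ≠ 0 := ⟨m, hmne⟩
  refine ⟨Nat.find hex, (Nat.find_min' hex hmne).trans (by omega), fun j hj => ?_, Nat.find_spec hex⟩
  by_contra h
  exact Nat.find_min hex hj h

lemma F_app (U : Finset (List ℕ+)) (c : List ℕ+ → ℝ) (q : List ℕ) (s N : ℕ) :
    ∑ u ∈ U, c u * Hs (q ++ s :: nat u) N =
      ∑ n ∈ Finset.range N, F U c n * ((((n + 1 : ℕ) : ℝ) ^ s)⁻¹ * es q n N) := by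
  simp only [Hs_app, F, Finset.mul_sum, Finset.sum_mul]
  rw [Finset.sum_comm]
  refine Finset.sum_congr rfl fun n _ => Finset.sum_congr rfl fun u _ => ?_
  ring

lemma w_low (q : List ℕ) (s n0 N : ℕ) (hN : n0 + 1 ≤ N) :
    (((n0 + 1 : ℕ) : ℝ) ^ (s + q.sum))⁻¹ ≤ (((n0 + 1 : ℕ) : ℝ) ^ s)⁻¹ * es q n0 N := by
  rw [pow_add, mul_inv]
  exact mul_le_mul_of_nonneg_left (es_low q n0 N hN) (by positivity)

lemma w_up (q : List ℕ) (hq : ∀ x ∈ q, 2 ≤ x) (s : ℕ) (hs : 2 ≤ s) (n0 n N : ℕ) (hn : n0 + 1 ≤ n) (hnN : n < N) :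
    (((n + 1 : ℕ) : ℝ) ^ s)⁻¹ * es q n N ≤
      (((n + 1 : ℕ) : ℝ) ^ 2)⁻¹ * ((Nat.choose (2 * (n0 + 2)) (n0 + 2) : ℝ) * ((n0 + 2 : ℕ) : ℝ) ^ 2 *
        (((n0 + 2 : ℕ) : ℝ) ^ (s + q.sum))⁻¹) := by
  obtain ⟨s', rfl⟩ : ∃ s', s = s' + 2 := ⟨s - 2, by omega⟩
  have h1 : es q n N ≤ (Nat.choose (2 * (n0 + 2)) (n0 + 2) : ℝ) * (((n0 + 2 : ℕ) : ℝ) ^ q.sum)⁻¹ := by
    refine (es_anti q hn hnN.le).trans ((es_up q hq (n0 + 1) N (by omega)).trans ?_)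
    exact mul_le_mul_of_nonneg_right (G_le _ _) (by positivity)
  have h2 : (((n + 1 : ℕ) : ℝ) ^ (s' + 2))⁻¹ ≤ (((n + 1 : ℕ) : ℝ) ^ 2)⁻¹ * (((n0 + 2 : ℕ) : ℝ) ^ s')⁻¹ := by
    rw [pow_add, mul_inv, mul_comm]
    refine mul_le_mul_of_nonneg_left ?_ (by positivity)
    refine inv_anti₀ (by positivity) (pow_le_pow_left₀ (by positivity) ?_ _)
    exact_mod_cast (by omega : n0 + 2 ≤ n + 1)
  refine (mul_le_mul h2 h1 (es_nonneg _ _ _) (by positivity)).trans (le_of_eq ?_)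
  have h3 : (((n0 + 2 : ℕ) : ℝ)) ≠ 0 := by positivity
  have h4 : (((n0 + 2 : ℕ) : ℝ) ^ (s' + 2 + q.sum))⁻¹ =
      (((n0 + 2 : ℕ) : ℝ) ^ s')⁻¹ * (((n0 + 2 : ℕ) : ℝ) ^ 2)⁻¹ * (((n0 + 2 : ℕ) : ℝ) ^ q.sum)⁻¹ := by
    rw [pow_add, pow_add, mul_inv, mul_inv]
  rw [h4]
  have h5 : ((n0 + 2 : ℕ) : ℝ) ^ 2 * (((n0 + 2 : ℕ) : ℝ) ^ 2)⁻¹ = 1 := mul_inv_cancel₀ (pow_ne_zero _ h3)
  linear_combination (-(((n + 1 : ℕ) : ℝ) ^ 2)⁻¹ * (Nat.choose (2 * (n0 + 2)) (n0 + 2) : ℝ) *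
    (((n0 + 2 : ℕ) : ℝ) ^ s')⁻¹ * (((n0 + 2 : ℕ) : ℝ) ^ q.sum)⁻¹) * h5

lemma est (U : Finset (List ℕ+)) (c : List ℕ+ → ℝ) (n0 : ℕ) (hz : ∀ n < n0, F U c n = 0) (C Z : ℝ) (hC0 : 0 ≤ C)
    (hC : ∀ u ∈ U, |c u| ≤ C) (hZ : ∀ N, ∑ u ∈ U, Hs (2 :: nat u) N ≤ Z) (q : List ℕ) (hq : ∀ x ∈ q, 2 ≤ x) (s : ℕ)
    (hs : 2 ≤ s) (N : ℕ) (hN : n0 + 1 ≤ N) :
    |F U c n0| * (((n0 + 1 : ℕ) : ℝ) ^ (s + q.sum))⁻¹ ≤ |∑ u ∈ U, c u * Hs (q ++ s :: nat u) N| +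
      C * Z * ((Nat.choose (2 * (n0 + 2)) (n0 + 2) : ℝ) * ((n0 + 2 : ℕ) : ℝ) ^ 2 *
        (((n0 + 2 : ℕ) : ℝ) ^ (s + q.sum))⁻¹) := by
  set X : ℝ := (Nat.choose (2 * (n0 + 2)) (n0 + 2) : ℝ) * ((n0 + 2 : ℕ) : ℝ) ^ 2 *
    (((n0 + 2 : ℕ) : ℝ) ^ (s + q.sum))⁻¹ with hX
  have hX0 : 0 ≤ X := by rw [hX]; positivity
  set w : ℕ → ℝ := fun n => (((n + 1 : ℕ) : ℝ) ^ s)⁻¹ * es q n N with hw
  have hw0 : ∀ n, 0 ≤ w n := fun n => mul_nonneg (by positivity) (es_nonneg _ _ _)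
  have h1 : ∑ u ∈ U, c u * Hs (q ++ s :: nat u) N = ∑ n ∈ Finset.range N, F U c n * w n := F_app U c q s N
  have h2 : ∑ n ∈ Finset.range N, F U c n * w n =
      F U c n0 * w n0 + ∑ n ∈ Finset.Ico (n0 + 1) N, F U c n * w n := by
    rw [Finset.range_eq_Ico, ← Finset.sum_Ico_consecutive _ (Nat.zero_le (n0 + 1)) hN,
      Finset.sum_Ico_succ_top (Nat.zero_le _)]
    congr 1
    have : ∑ n ∈ Finset.Ico 0 n0, F U c n * w n = 0 :=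
      Finset.sum_eq_zero fun n hn => by rw [hz n (Finset.mem_Ico.1 hn).2, zero_mul]
    rw [this, zero_add]
  have h3 : |∑ n ∈ Finset.Ico (n0 + 1) N, F U c n * w n| ≤ C * Z * X := by
    have h4 : ∀ n ∈ Finset.Ico (n0 + 1) N, |F U c n * w n| ≤
        C * X * ∑ u ∈ U, (((n + 1 : ℕ) : ℝ) ^ 2)⁻¹ * Hs (nat u) (n + 1) := by
      intro n hn
      rw [Finset.mem_Ico] at hn
      rw [abs_mul, abs_of_nonneg (hw0 n)]
      have h5 : |F U c n| ≤ C * ∑ u ∈ U, Hs (nat u) (n + 1) := by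
        rw [F, Finset.mul_sum]
        refine (Finset.abs_sum_le_sum_abs _ _).trans (Finset.sum_le_sum fun u hu => ?_)
        rw [abs_mul, abs_of_nonneg (Hs_nonneg _ _)]
        exact mul_le_mul_of_nonneg_right (hC u hu) (Hs_nonneg _ _)
      refine (mul_le_mul h5 (w_up q hq s hs n0 n N hn.1 hn.2) (hw0 n)
        (mul_nonneg hC0 (Finset.sum_nonneg fun u _ => Hs_nonneg _ _))).trans (le_of_eq ?_)
      rw [← hX, ← Finset.mul_sum]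
      ring
    refine (Finset.abs_sum_le_sum_abs _ _).trans ((Finset.sum_le_sum h4).trans ?_)
    rw [← Finset.mul_sum]
    have h6 : ∑ n ∈ Finset.Ico (n0 + 1) N, ∑ u ∈ U, (((n + 1 : ℕ) : ℝ) ^ 2)⁻¹ * Hs (nat u) (n + 1) ≤ Z := by
      refine le_trans ?_ (hZ N)
      simp only [Hs_cons]
      rw [Finset.sum_comm]
      refine Finset.sum_le_sum fun u _ => ?_
      refine Finset.sum_le_sum_of_subset_of_nonneg ?_ fun n _ _ => mul_nonneg (by positivity) (Hs_nonneg _ _)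
      intro n hn
      rw [Finset.mem_Ico] at hn
      exact Finset.mem_range.2 hn.2
    calc C * X * _ ≤ C * X * Z := mul_le_mul_of_nonneg_left h6 (mul_nonneg hC0 hX0)
      _ = C * Z * X := by ring
  have h7 : |F U c n0| * w n0 ≤ |∑ u ∈ U, c u * Hs (q ++ s :: nat u) N| + C * Z * X := by
    have h8 : F U c n0 * w n0 =
        (∑ u ∈ U, c u * Hs (q ++ s :: nat u) N) - ∑ n ∈ Finset.Ico (n0 + 1) N, F U c n * w n := by
      rw [h1, h2]; ring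
    have h9 := abs_sub (∑ u ∈ U, c u * Hs (q ++ s :: nat u) N) (∑ n ∈ Finset.Ico (n0 + 1) N, F U c n * w n)
    rw [← h8, abs_mul, abs_of_nonneg (hw0 n0)] at h9
    linarith
  exact le_trans (mul_le_mul_of_nonneg_left (w_low q s n0 N hN) (abs_nonneg _)) h7

/-- the star value -/
noncomputable def sval (l : List ℕ) : ℝ := limUnder atTop (Hs l)

lemma tendsto_sval (a : ℕ+) (ha : 2 ≤ (a : ℕ)) (w : List ℕ+) :
    Tendsto (Hs (nat (a :: w))) atTop (𝓝 (sval (nat (a :: w)))) := by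
  obtain ⟨B, hB⟩ := Hs_bdd a ha w
  have h := tendsto_atTop_ciSup (Hs_mono (nat (a :: w))) ⟨B, by rintro _ ⟨N, rfl⟩; exact hB N⟩
  exact tendsto_nhds_limUnder ⟨_, h⟩

lemma tendsto_all (p : List ℕ) (hp0 : p ≠ []) (hp : ∀ x ∈ p, 2 ≤ x) (u : List ℕ+) :
    Tendsto (Hs (p ++ nat u)) atTop (𝓝 (sval (p ++ nat u))) := by
  cases p with
  | nil => exact absurd rfl hp0
  | cons a q =>
    have ha : 2 ≤ a := hp a List.mem_cons_self
    have h1 : nat (q.map Nat.toPNat') = q := by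
      rw [nat, List.map_map]
      conv_rhs => rw [← List.map_id q]
      refine List.map_congr_left fun x hx => ?_
      have h2 := hp x (List.mem_cons_of_mem _ hx)
      rw [Function.comp_apply, Nat.toPNat'_coe, if_pos (by omega), id]
    have h3 : nat (⟨a, by omega⟩ :: (q.map Nat.toPNat' ++ u)) = a :: (nat (q.map Nat.toPNat') ++ nat u) := by
      rw [nat, nat, nat, List.map_cons, List.map_append]
      rfl
    have h2 : a :: q ++ nat u = nat (⟨a, by omega⟩ :: (q.map Nat.toPNat' ++ u)) := by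
      rw [h3, h1]
      rfl
    rw [h2]
    exact tendsto_sval ⟨a, by omega⟩ ha _

lemma lim (U : Finset (List ℕ+)) (c : List ℕ+ → ℝ) (n0 : ℕ) (hz : ∀ n < n0, F U c n = 0) (C Z : ℝ) (hC0 : 0 ≤ C)
    (hC : ∀ u ∈ U, |c u| ≤ C) (hZ : ∀ N, ∑ u ∈ U, Hs (2 :: nat u) N ≤ Z) (p : List ℕ) (hp0 : p ≠ [])
    (hp : ∀ x ∈ p, 2 ≤ x) :
    |F U c n0| * (((n0 + 1 : ℕ) : ℝ) ^ p.sum)⁻¹ ≤ |∑ u ∈ U, c u * sval (p ++ nat u)| +
      C * Z * ((Nat.choose (2 * (n0 + 2)) (n0 + 2) : ℝ) * ((n0 + 2 : ℕ) : ℝ) ^ 2 *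
        (((n0 + 2 : ℕ) : ℝ) ^ p.sum)⁻¹) := by
  obtain ⟨q, s, rfl⟩ : ∃ q s, p = q ++ [s] := by
    rcases List.eq_nil_or_concat p with rfl | ⟨q, s, rfl⟩
    · exact absurd rfl hp0
    · exact ⟨q, s, List.concat_eq_append⟩
  have hq : ∀ x ∈ q, 2 ≤ x := fun x hx => hp x (by simp [hx])
  have hs : 2 ≤ s := hp s (by simp)
  have e1 : (q ++ [s]).sum = s + q.sum := by rw [List.sum_append, List.sum_singleton, add_comm]
  have htend : Tendsto (fun N => |∑ u ∈ U, c u * Hs (q ++ [s] ++ nat u) N| +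
      C * Z * ((Nat.choose (2 * (n0 + 2)) (n0 + 2) : ℝ) * ((n0 + 2 : ℕ) : ℝ) ^ 2 *
        (((n0 + 2 : ℕ) : ℝ) ^ (q ++ [s]).sum)⁻¹)) atTop
      (𝓝 (|∑ u ∈ U, c u * sval (q ++ [s] ++ nat u)| +
      C * Z * ((Nat.choose (2 * (n0 + 2)) (n0 + 2) : ℝ) * ((n0 + 2 : ℕ) : ℝ) ^ 2 *
        (((n0 + 2 : ℕ) : ℝ) ^ (q ++ [s]).sum)⁻¹))) :=
    ((tendsto_finsetSum _ fun u _ => (tendsto_all (q ++ [s]) hp0 hp u).const_mul _).abs).add_const _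
  refine ge_of_tendsto htend ?_
  filter_upwards [eventually_ge_atTop (n0 + 1)] with N hN
  have h1 := est U c n0 hz C Z hC0 hC hZ q hq s hs N hN
  rw [e1]
  simp only [List.append_assoc, List.singleton_append]
  exact h1

end Pool.Agent.U623.HZ
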