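import Mathlib
import Pool.Agent.U623.HZ.Main
import Pool.Agent.TH456.TM.Inst

/-!
# Star sums with a common first part: the theorem
-/

set_option autoImplicit false

namespace Pool.Agent.U623.HZ

open Filter Topology
open Pool.Agent.Q217.TT (nat)

lemma two_bdd (U : Finset (List ℕ+)) : ∃ Z : ℝ, 1 ≤ Z ∧ ∀ N, ∑ u ∈ U, Hs (2 :: nat u) N ≤ Z := by
  have h : ∀ u : List ℕ+, ∃ B : ℝ, ∀ N, Hs (nat (2 :: u)) N ≤ B := fun u => Hs_bdd 2 le_rfl u
  choose B hB using h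
  refine ⟨max 1 (∑ u ∈ U, B u), le_max_left _ _, fun N => ?_⟩
  exact (Finset.sum_le_sum fun u _ => hB u N).trans (le_max_right _ _)

/-- the constant -/
lemma X_bdd (M : ℕ) : ∃ X : ℝ, 1 ≤ X ∧ ∀ n0 ≤ M,
    (Nat.choose (2 * (n0 + 2)) (n0 + 2) : ℝ) * ((n0 + 2 : ℕ) : ℝ) ^ 2 ≤ X := by
  refine ⟨1 + ∑ n ∈ Finset.range (M + 1), (Nat.choose (2 * (n + 2)) (n + 2) : ℝ) * ((n + 2 : ℕ) : ℝ) ^ 2, ?_, ?_⟩
  · have : 0 ≤ ∑ n ∈ Finset.range (M + 1), (Nat.choose (2 * (n + 2)) (n + 2) : ℝ) * ((n + 2 : ℕ) : ℝ) ^ 2 :=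
      Finset.sum_nonneg fun n _ => by positivity
    linarith
  · intro n0 hn0
    have := Finset.single_le_sum
      (f := fun n : ℕ => (Nat.choose (2 * (n + 2)) (n + 2) : ℝ) * ((n + 2 : ℕ) : ℝ) ^ 2)
      (fun n _ => by positivity) (Finset.mem_range.2 (by omega : n0 < M + 1))
    linarith

/-- the main inequality, divided -/
lemma core (U : Finset (List ℕ+)) (c : List ℕ+ → ℝ) (M n0 : ℕ) (hM : n0 ≤ M) (hz : ∀ n < n0, F U c n = 0)
    (C Z X : ℝ) (hC0 : 0 ≤ C) (hC : ∀ u ∈ U, |c u| ≤ C) (hZ0 : 0 ≤ Z) (hZ : ∀ N, ∑ u ∈ U, Hs (2 :: nat u) N ≤ Z)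
    (hX : (Nat.choose (2 * (n0 + 2)) (n0 + 2) : ℝ) * ((n0 + 2 : ℕ) : ℝ) ^ 2 ≤ X) (p : List ℕ) (hp0 : p ≠ [])
    (hp : ∀ x ∈ p, 2 ≤ x) :
    |F U c n0| ≤ ((M + 1 : ℕ) : ℝ) ^ p.sum * |∑ u ∈ U, c u * sval (p ++ nat u)| +
      C * Z * X * (((M + 1 : ℕ) : ℝ) / ((M + 2 : ℕ) : ℝ)) ^ p.sum := by
  have h := lim U c n0 hz C Z hC0 hC hZ p hp0 hp
  set W := p.sum
  have ha : (0 : ℝ) < ((n0 + 1 : ℕ) : ℝ) := by positivity
  have hb : (0 : ℝ) < ((n0 + 2 : ℕ) : ℝ) := by positivity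
  have h1 : |F U c n0| ≤ ((n0 + 1 : ℕ) : ℝ) ^ W * (|∑ u ∈ U, c u * sval (p ++ nat u)| +
      C * Z * ((Nat.choose (2 * (n0 + 2)) (n0 + 2) : ℝ) * ((n0 + 2 : ℕ) : ℝ) ^ 2 *
        (((n0 + 2 : ℕ) : ℝ) ^ W)⁻¹)) := by
    have h2 := mul_le_mul_of_nonneg_left h (pow_pos ha W).le
    have h3 : ((n0 + 1 : ℕ) : ℝ) ^ W * (|F U c n0| * (((n0 + 1 : ℕ) : ℝ) ^ W)⁻¹) = |F U c n0| := by
      have := mul_inv_cancel₀ (pow_pos ha W).ne'
      linear_combination |F U c n0| * this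
    rwa [h3] at h2
  refine h1.trans ?_
  rw [mul_add]
  have hMr : ((n0 : ℕ) : ℝ) ≤ (M : ℝ) := by exact_mod_cast hM
  refine add_le_add ?_ ?_
  · refine mul_le_mul_of_nonneg_right (pow_le_pow_left₀ ha.le ?_ _) (abs_nonneg _)
    push_cast
    linarith
  · have h4 : ((n0 + 1 : ℕ) : ℝ) ^ W * (((n0 + 2 : ℕ) : ℝ) ^ W)⁻¹ ≤
        (((M + 1 : ℕ) : ℝ) / ((M + 2 : ℕ) : ℝ)) ^ W := by
      rw [← div_eq_mul_inv, ← div_pow]
      refine pow_le_pow_left₀ (by positivity) ?_ _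
      rw [div_le_div_iff₀ hb (by positivity)]
      push_cast
      nlinarith
    calc ((n0 + 1 : ℕ) : ℝ) ^ W * (C * Z * ((Nat.choose (2 * (n0 + 2)) (n0 + 2) : ℝ) * ((n0 + 2 : ℕ) : ℝ) ^ 2 *
        (((n0 + 2 : ℕ) : ℝ) ^ W)⁻¹))
        = C * Z * (((Nat.choose (2 * (n0 + 2)) (n0 + 2) : ℝ) * ((n0 + 2 : ℕ) : ℝ) ^ 2) *
          (((n0 + 1 : ℕ) : ℝ) ^ W * (((n0 + 2 : ℕ) : ℝ) ^ W)⁻¹)) := by ring
      _ ≤ C * Z * (X * (((M + 1 : ℕ) : ℝ) / ((M + 2 : ℕ) : ℝ)) ^ W) := by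
        refine mul_le_mul_of_nonneg_left ?_ (mul_nonneg hC0 hZ0)
        exact mul_le_mul hX h4 (by positivity) (le_trans (by positivity) hX)
      _ = _ := by ring

/-- the integer values -/
lemma ints (U : Finset (List ℕ+)) (M : ℕ) : ∃ T : ℕ, ∀ u ∈ U, ∀ n0 ≤ M, ∃ y : ℤ,
    Hs (nat u) (n0 + 1) * (((n0 + 1).factorial : ℕ) : ℝ) ^ T = y := by
  refine ⟨∑ u ∈ U, (nat u).sum, fun u hu n0 _ => ?_⟩
  obtain ⟨z, hz⟩ := den_star (nat u) (n0 + 1)
  have h1 : (nat u).sum ≤ ∑ u ∈ U, (nat u).sum :=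
    Finset.single_le_sum (f := fun u => (nat u).sum) (fun _ _ => Nat.zero_le _) hu
  refine ⟨z * (((n0 + 1).factorial : ℕ) : ℤ) ^ (∑ u ∈ U, (nat u).sum - (nat u).sum), ?_⟩
  conv_lhs => rw [← Nat.add_sub_cancel' h1, pow_add, ← mul_assoc, hz]
  push_cast
  rfl

/-- **Theorem**, star values. -/
theorem main (U : Finset (List ℕ+)) (d : ℕ) : ∃ L : ℕ, 1 ≤ L ∧
    (∀ c : List ℕ+ → ℝ, (∃ u ∈ U, c u ≠ 0) → ∃ κ : ℝ, 0 < κ ∧ ∃ w0 : ℕ, ∀ p : List ℕ, p ≠ [] → (∀ x ∈ p, 2 ≤ x) →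
      w0 ≤ p.sum → κ / (L : ℝ) ^ p.sum ≤ |∑ u ∈ U, c u * sval (p ++ nat u)|) ∧
    (∃ κ ρ : ℝ, 0 < κ ∧ 1 < ρ ∧ ∀ p : List ℕ, p ≠ [] → (∀ x ∈ p, 2 ≤ x) → ∀ c : List ℕ+ → Polynomial ℤ,
      (∃ u ∈ U, c u ≠ 0) → (∀ u ∈ U, (c u).natDegree ≤ d) →
      (∀ u ∈ U, ∀ i, |((c u).coeff i : ℝ)| ≤ κ * ρ ^ p.sum) →
      κ / (L : ℝ) ^ p.sum ≤ |∑ u ∈ U, Polynomial.aeval Real.pi (c u) * sval (p ++ nat u)|) := by
  classical
  obtain ⟨M, hM⟩ := first U
  obtain ⟨Z, hZ1, hZ⟩ := two_bdd U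
  obtain ⟨X, hX1, hX⟩ := X_bdd M
  obtain ⟨κ0, c0, hκ0, hc0, hmeas⟩ := Pool.Agent.TH456.TM.measT_pi d
  obtain ⟨T, hT⟩ := ints U M
  set θ : ℝ := ((M + 1 : ℕ) : ℝ) / ((M + 2 : ℕ) : ℝ) with hθ
  have hθ0 : 0 < θ := by rw [hθ]; positivity
  have hθ1 : θ < 1 := by
    rw [hθ, div_lt_one (by positivity)]
    push_cast
    linarith
  have hM1 : (1 : ℝ) ≤ ((M + 1 : ℕ) : ℝ) := by
    push_cast
    have : (0 : ℝ) ≤ (M : ℝ) := Nat.cast_nonneg _
    linarith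
  have hLcast : ((2 * (M + 1) : ℕ) : ℝ) = 2 * ((M + 1 : ℕ) : ℝ) := by push_cast; ring
  refine ⟨2 * (M + 1), by omega, ?_, ?_⟩
  · intro c hc
    obtain ⟨n0, hn0, hz, hne⟩ := hM c hc
    set C : ℝ := ∑ u ∈ U, |c u| with hC
    have hC0 : 0 ≤ C := Finset.sum_nonneg fun u _ => abs_nonneg _
    have hCu : ∀ u ∈ U, |c u| ≤ C := fun u hu =>
      Finset.single_le_sum (f := fun u => |c u|) (fun _ _ => abs_nonneg _) hu
    set δ : ℝ := |F U c n0| with hδ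
    have hδ0 : 0 < δ := abs_pos.2 hne
    have hCZX : 0 ≤ C * Z * X := mul_nonneg (mul_nonneg hC0 (by linarith)) (by linarith)
    obtain ⟨w0, hw0⟩ := exists_pow_lt_of_lt_one (by positivity : 0 < δ / (2 * (C * Z * X + 1))) hθ1
    refine ⟨δ / 2, by positivity, w0, fun p hp0 hp hw => ?_⟩
    have h1 := core U c M n0 hn0 hz C Z X hC0 hCu (by linarith) hZ (hX n0 hn0) p hp0 hp
    have h2 : θ ^ p.sum ≤ δ / (2 * (C * Z * X + 1)) :=
      (pow_le_pow_of_le_one hθ0.le hθ1.le hw).trans hw0.le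
    have h3 : C * Z * X * θ ^ p.sum ≤ δ / 2 := by
      calc C * Z * X * θ ^ p.sum ≤ (C * Z * X + 1) * (δ / (2 * (C * Z * X + 1))) :=
            mul_le_mul (by linarith) h2 (by positivity) (by linarith)
        _ = δ / 2 := by field_simp
    have h4 : δ / 2 ≤ ((M + 1 : ℕ) : ℝ) ^ p.sum * |∑ u ∈ U, c u * sval (p ++ nat u)| := by linarith
    rw [div_le_iff₀ (by positivity), mul_comm]
    refine h4.trans (mul_le_mul_of_nonneg_right (pow_le_pow_left₀ (by linarith) ?_ _) (abs_nonneg _))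
    rw [hLcast]
    linarith
  · set K : ℕ := ⌈κ0⌉₊ with hK
    set P : ℝ := ∑ i ∈ Finset.range (d + 1), Real.pi ^ i with hP
    have hP0 : 0 ≤ P := Finset.sum_nonneg fun i _ => by positivity
    set f : ℝ := (((M + 1).factorial : ℕ) : ℝ) ^ T with hf
    have hf0 : 0 < f := by rw [hf]; positivity
    set Y : ℝ := 1 + ∑ u ∈ U, Hs (nat u) (M + 1) * f with hY
    have hY1 : 1 ≤ Y := by
      have : 0 ≤ ∑ u ∈ U, Hs (nat u) (M + 1) * f :=
        Finset.sum_nonneg fun u _ => mul_nonneg (Hs_nonneg _ _) hf0.le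
      rw [hY]
      linarith
    set δ : ℝ := c0 / (Y ^ K * f) with hδ
    have hδ0 : 0 < δ := by rw [hδ]; positivity
    set ρ : ℝ := (((M + 2 : ℕ) : ℝ) / ((M + 1 : ℕ) : ℝ)) ^ (((K + 1 : ℕ) : ℝ)⁻¹) with hρ
    have hb1 : 1 < ((M + 2 : ℕ) : ℝ) / ((M + 1 : ℕ) : ℝ) := by
      rw [one_lt_div (by positivity)]
      push_cast
      linarith
    have hρ1 : 1 < ρ := by
      rw [hρ]
      exact Real.one_lt_rpow hb1 (by positivity)
    have hρK : ρ ^ (K + 1) = ((M + 2 : ℕ) : ℝ) / ((M + 1 : ℕ) : ℝ) := by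
      rw [hρ]
      exact Real.rpow_inv_natCast_pow (by positivity) (by omega)
    have hθρ : ρ ^ (K + 1) * θ = 1 := by
      rw [hρK, hθ]
      field_simp
    have hρ2 : ρ ^ K ≤ 2 := by
      have h1 : ρ ^ K ≤ ρ ^ (K + 1) := pow_le_pow_right₀ hρ1.le (by omega)
      refine h1.trans ?_
      rw [hρK, div_le_iff₀ (by positivity)]
      push_cast
      have : (0 : ℝ) ≤ (M : ℝ) := Nat.cast_nonneg _
      linarith
    set κ : ℝ := min (min 1 (δ / 2)) (δ / (2 * ((P + 1) * Z * X))) with hκ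
    have hZX : 0 < (P + 1) * Z * X := by
      have h1 : 0 < Z := by linarith
      have h2 : 0 < X := by linarith
      positivity
    have hκpos : 0 < κ := by
      rw [hκ]
      refine lt_min (lt_min one_pos (by positivity)) (by positivity)
    have hκ1 : κ ≤ 1 := (min_le_left _ _).trans (min_le_left _ _)
    have hκ2 : κ ≤ δ / 2 := (min_le_left _ _).trans (min_le_right _ _)
    have hκ3 : κ * ((P + 1) * Z * X) ≤ δ / 2 := by
      have h1 : κ ≤ δ / (2 * ((P + 1) * Z * X)) := min_le_right _ _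
      calc κ * ((P + 1) * Z * X) ≤ δ / (2 * ((P + 1) * Z * X)) * ((P + 1) * Z * X) :=
            mul_le_mul_of_nonneg_right h1 hZX.le
        _ = δ / 2 := by field_simp
    refine ⟨κ, ρ, hκpos, hρ1, fun p hp0 hp c hc hcd hcb => ?_⟩
    set W := p.sum with hW
    set h : ℝ := κ * ρ ^ W with hh
    obtain ⟨u1, hu1, hcu1⟩ := hc
    obtain ⟨i1, hi1⟩ : ∃ i, (c u1).coeff i ≠ 0 := by
      by_contra h
      push Not at h
      exact hcu1 (Polynomial.ext h)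
    have hh1 : 1 ≤ h := by
      have h2 : (1 : ℝ) ≤ |((c u1).coeff i1 : ℝ)| := by
        rw [← Int.cast_abs]
        exact_mod_cast Int.one_le_abs hi1
      exact h2.trans (hcb u1 hu1 i1)
    set cr : List ℕ+ → ℝ := fun u => Polynomial.aeval Real.pi (c u) with hcr
    have hcrs : ∀ u ∈ U, cr u = ∑ i ∈ Finset.range (d + 1), ((c u).coeff i : ℝ) * Real.pi ^ i := by
      intro u hu
      rw [hcr]
      simp only
      rw [Polynomial.aeval_eq_sum_range' (Nat.lt_succ_of_le (hcd u hu))]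
      refine Finset.sum_congr rfl fun i _ => ?_
      rw [zsmul_eq_mul]
    have hcrb : ∀ u ∈ U, |cr u| ≤ h * (P + 1) := by
      intro u hu
      rw [hcrs u hu]
      refine (Finset.abs_sum_le_sum_abs _ _).trans ?_
      have h1 : ∑ i ∈ Finset.range (d + 1), |((c u).coeff i : ℝ) * Real.pi ^ i| ≤ h * P := by
        rw [hP, Finset.mul_sum]
        refine Finset.sum_le_sum fun i _ => ?_
        rw [abs_mul, abs_of_nonneg (by positivity : (0 : ℝ) ≤ Real.pi ^ i)]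
        exact mul_le_mul_of_nonneg_right (hcb u hu i) (by positivity)
      nlinarith
    have hmeasR : ∀ S : Polynomial ℤ, S ≠ 0 → S.natDegree ≤ d → ∀ H : ℝ, 1 ≤ H → (∀ k, |(S.coeff k : ℝ)| ≤ H) →
        c0 ≤ H ^ K * |Polynomial.aeval Real.pi S| := by
      intro S hS hSd H hH hSH
      have h1 := hmeas S hS hSd H hH hSH
      have h2 : Polynomial.aeval (Real.pi : ℂ) S = ((Polynomial.aeval Real.pi S : ℝ) : ℂ) :=
        Polynomial.aeval_algebraMap_apply ℂ Real.pi S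
      rw [h2, Complex.norm_real, Real.norm_eq_abs] at h1
      refine h1.trans (mul_le_mul_of_nonneg_right ?_ (abs_nonneg _))
      rw [← Real.rpow_natCast]
      exact Real.rpow_le_rpow_of_exponent_le hH (Nat.le_ceil _)
    have hne : cr u1 ≠ 0 := by
      intro h0
      have h1 := hmeasR (c u1) hcu1 (hcd u1 hu1) h hh1 (fun k => hcb u1 hu1 k)
      have h2 : Polynomial.aeval Real.pi (c u1) = 0 := h0
      rw [h2, abs_zero, mul_zero] at h1
      linarith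
    obtain ⟨n0, hn0, hz, hF⟩ := hM cr ⟨u1, hu1, hne⟩
    -- the polynomial in the number `π`
    have hy : ∀ u : List ℕ+, ∃ y : ℤ, u ∈ U → Hs (nat u) (n0 + 1) * (((n0 + 1).factorial : ℕ) : ℝ) ^ T = y := by
      intro u
      by_cases hu : u ∈ U
      · obtain ⟨y, hy⟩ := hT u hu n0 hn0
        exact ⟨y, fun _ => hy⟩
      · exact ⟨0, fun h => absurd h hu⟩
    choose y hy using hy
    have hfn : (((n0 + 1).factorial : ℕ) : ℝ) ^ T ≤ f := by
      rw [hf]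
      refine pow_le_pow_left₀ (by positivity) ?_ _
      exact_mod_cast Nat.factorial_le (by omega : n0 + 1 ≤ M + 1)
    have hfn0 : 0 < (((n0 + 1).factorial : ℕ) : ℝ) ^ T := by positivity
    have hyb : ∑ u ∈ U, |(y u : ℝ)| ≤ Y := by
      have h1 : ∑ u ∈ U, |(y u : ℝ)| ≤ ∑ u ∈ U, Hs (nat u) (M + 1) * f := by
        refine Finset.sum_le_sum fun u hu => ?_
        rw [← hy u hu, abs_of_nonneg (mul_nonneg (Hs_nonneg _ _) hfn0.le)]
        exact mul_le_mul (Hs_mono _ (by omega)) hfn hfn0.le (Hs_nonneg _ _)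
      rw [hY]
      linarith
    set S : Polynomial ℤ := ∑ u ∈ U, c u * Polynomial.C (y u) with hS
    have hSe : Polynomial.aeval Real.pi S = F U cr n0 * (((n0 + 1).factorial : ℕ) : ℝ) ^ T := by
      rw [hS, map_sum, F, Finset.sum_mul]
      refine Finset.sum_congr rfl fun u hu => ?_
      rw [map_mul, Polynomial.aeval_C, mul_assoc, hy u hu]
      rfl
    have hS0 : S ≠ 0 := by
      intro h0
      rw [h0, map_zero] at hSe
      exact (mul_ne_zero hF hfn0.ne') hSe.symm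
    have hSd : S.natDegree ≤ d := by
      rw [hS]
      refine Polynomial.natDegree_sum_le_of_forall_le _ _ fun u hu => ?_
      exact (Polynomial.natDegree_mul_C_le _ _).trans (hcd u hu)
    have hSc : ∀ k, |(S.coeff k : ℝ)| ≤ h * Y := by
      intro k
      rw [hS, Polynomial.finsetSum_coeff]
      push_cast
      refine (Finset.abs_sum_le_sum_abs _ _).trans ?_
      refine le_trans ?_ (mul_le_mul_of_nonneg_left hyb (by linarith))
      rw [Finset.mul_sum]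
      refine Finset.sum_le_sum fun u hu => ?_
      rw [Polynomial.coeff_mul_C]
      push_cast
      rw [abs_mul]
      exact mul_le_mul_of_nonneg_right (hcb u hu k) (abs_nonneg _)
    have hlow := hmeasR S hS0 hSd (h * Y) (one_le_mul_of_one_le_of_one_le hh1 hY1) hSc
    rw [hSe, abs_mul, abs_of_pos hfn0, mul_pow] at hlow
    have hlow2 : δ ≤ h ^ K * |F U cr n0| := by
      rw [hδ, div_le_iff₀ (by positivity)]
      refine hlow.trans ?_
      calc h ^ K * Y ^ K * (|F U cr n0| * (((n0 + 1).factorial : ℕ) : ℝ) ^ T)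
          ≤ h ^ K * Y ^ K * (|F U cr n0| * f) :=
            mul_le_mul_of_nonneg_left (mul_le_mul_of_nonneg_left hfn (abs_nonneg _)) (by positivity)
        _ = h ^ K * |F U cr n0| * (Y ^ K * f) := by ring
    have h1 := core U cr M n0 hn0 hz (h * (P + 1)) Z X (by positivity) hcrb (by linarith) hZ (hX n0 hn0) p hp0 hp
    have h2 : h ^ K * (h * (P + 1) * Z * X * θ ^ W) ≤ δ / 2 := by
      have e1 : h ^ K * (h * (P + 1) * Z * X * θ ^ W) =
          κ ^ (K + 1) * (ρ ^ (K + 1) * θ) ^ W * ((P + 1) * Z * X) := by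
        rw [hh, mul_pow, mul_pow, ← pow_mul, ← pow_mul]
        ring
      rw [e1, hθρ, one_pow, mul_one]
      refine le_trans (mul_le_mul_of_nonneg_right ?_ hZX.le) hκ3
      calc κ ^ (K + 1) ≤ κ ^ 1 := pow_le_pow_of_le_one hκpos.le hκ1 (by omega)
        _ = κ := pow_one _
    have h3 : h ^ K * ((M + 1 : ℕ) : ℝ) ^ W ≤ ((2 * (M + 1) : ℕ) : ℝ) ^ W := by
      rw [hLcast, mul_pow 2]
      refine mul_le_mul_of_nonneg_right ?_ (by positivity)
      calc h ^ K = κ ^ K * (ρ ^ K) ^ W := by rw [hh, mul_pow, ← pow_mul, ← pow_mul, mul_comm W K]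
        _ ≤ 1 * 2 ^ W := mul_le_mul (pow_le_one₀ hκpos.le hκ1) (pow_le_pow_left₀ (by positivity) hρ2 _)
            (by positivity) zero_le_one
        _ = 2 ^ W := one_mul _
    set V : ℝ := |∑ u ∈ U, cr u * sval (p ++ nat u)| with hV
    have h4 : δ ≤ ((2 * (M + 1) : ℕ) : ℝ) ^ W * V + δ / 2 := by
      calc δ ≤ h ^ K * |F U cr n0| := hlow2
        _ ≤ h ^ K * (((M + 1 : ℕ) : ℝ) ^ W * V + h * (P + 1) * Z * X * θ ^ W) :=
          mul_le_mul_of_nonneg_left h1 (by positivity)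
        _ = h ^ K * ((M + 1 : ℕ) : ℝ) ^ W * V + h ^ K * (h * (P + 1) * Z * X * θ ^ W) := by ring
        _ ≤ _ := add_le_add (mul_le_mul_of_nonneg_right h3 (abs_nonneg _)) h2
    rw [div_le_iff₀ (by positivity), mul_comm]
    linarith

end Pool.Agent.U623.HZ
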